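import Pool.Agent.H.MP_618f8d_co.E

namespace Pool.Agent.Results.MP_618f8d_co.Yes

open Filter Topology

/-- number of unique spanning subgraphs of `G` -/
noncomputable def u {n : ℕ} (G : SimpleGraph (Fin n)) : ℕ :=
  Set.ncard {H : SimpleGraph (Fin n) | H ≤ G ∧ ∀ H' ≤ G, Nonempty (H' ≃g H) → H' = H}

/-- the number of edges -/
noncomputable def m (n : ℕ) : ℕ := n.choose 2 - ⌊(n : ℝ) * Real.logb 2 n⌋₊

open Classical Finset Real Pool.Agent.H.MP_618f8d_co in
theorem aux (c : ℝ) (hc : c < 1) : ∀ᶠ n : ℕ in atTop,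
    0 < Set.ncard {G : SimpleGraph (Fin n) | G.edgeSet.ncard = m n} ∧
    (Set.ncard {G : SimpleGraph (Fin n) | G.edgeSet.ncard = m n} : ℝ)
      * (1 - (2 * exp (-(log n / 5)) + 4 * exp 1 * exp (1 / 2 - n / 1600)) / (1 - c))
    ≤ Set.ncard {G : SimpleGraph (Fin n) | G.edgeSet.ncard = m n ∧ c * 2 ^ m n ≤ u G} := by
  have h1 := (Real.isLittleO_pow_log_id_atTop (n := 2)).bound (c := 1 / 273600) (by norm_num)
  filter_upwards [eventually_ge_atTop 400, tendsto_natCast_atTop_atTop.eventually h1] with n hn h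
  have hl : 273600 * log n ^ 2 ≤ n := by
    simp only [id, norm_pow, norm_eq_abs, sq_abs, Nat.abs_cast] at h
    linarith
  have h0 : 0 ≤ (n : ℝ) * Real.logb 2 n :=
    mul_nonneg (by positivity) (Real.logb_nonneg (by norm_num) (by exact_mod_cast (by omega)))
  have := main n ⌊(n : ℝ) * Real.logb 2 n⌋₊ hn hl (Nat.floor_le h0)
    (Nat.sub_one_lt_floor _).le c hc
  have e : ∀ (p : SimpleGraph (Fin n) → Prop) [DecidablePred p],
      Set.ncard {G | p G} = #{G | p G} := by
    intro p _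
    rw [← Set.ncard_coe_finset]
    congr 1
    ext G
    simp
  simp only [u, ed_card, e, m]
  convert this

theorem result (c : ℝ) (hc : c < 1) :
    Tendsto (fun n : ℕ =>
      (Set.ncard {G : SimpleGraph (Fin n) | G.edgeSet.ncard = m n ∧ c * 2 ^ m n ≤ u G} : ℝ)
        / Set.ncard {G : SimpleGraph (Fin n) | G.edgeSet.ncard = m n}) atTop (𝓝 1) ∧
    ∀ᶠ n : ℕ in atTop, ∃ G : SimpleGraph (Fin n), G.edgeSet.ncard = m n ∧ c * 2 ^ m n ≤ u G := by
  have hb : Tendsto (fun n : ℕ => 1 - (2 * Real.exp (-(Real.log n / 5))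
      + 4 * Real.exp 1 * Real.exp (1 / 2 - n / 1600)) / (1 - c)) atTop (𝓝 1) := by
    have a1 : Tendsto (fun n : ℕ => Real.exp (-(Real.log n / 5))) atTop (𝓝 0) :=
      Real.tendsto_exp_neg_atTop_nhds_zero.comp
        ((Real.tendsto_log_atTop.comp tendsto_natCast_atTop_atTop).atTop_div_const (by norm_num))
    have a2 : Tendsto (fun n : ℕ => Real.exp (1 / 2 - n / 1600)) atTop (𝓝 0) := by
      refine Real.tendsto_exp_atBot.comp ?_
      exact tendsto_atBot_add_const_left _ _ (tendsto_neg_atTop_atBot.comp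
        (tendsto_natCast_atTop_atTop.atTop_div_const (by norm_num)))
    have := (((a1.const_mul 2).add (a2.const_mul (4 * Real.exp 1))).div_const (1 - c)).const_sub 1
    simpa using this
  refine ⟨?_, ?_⟩
  · refine tendsto_of_tendsto_of_tendsto_of_le_of_le' hb tendsto_const_nhds ?_ ?_
    · filter_upwards [aux c hc] with n h
      rw [le_div_iff₀ (by exact_mod_cast h.1), mul_comm]
      exact h.2
    · filter_upwards [aux c hc] with n h
      rw [div_le_one (by exact_mod_cast h.1)]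
      exact Nat.cast_le.2 (Set.ncard_le_ncard (fun G hG => hG.1) (Set.toFinite _))
  · filter_upwards [aux c hc, hb.eventually (lt_mem_nhds (show (0 : ℝ) < 1 by norm_num))]
      with n h h'
    have h1 : (0 : ℝ) < Set.ncard {G : SimpleGraph (Fin n) | G.edgeSet.ncard = m n ∧
        c * 2 ^ m n ≤ u G} := (mul_pos (by exact_mod_cast h.1) h').trans_le h.2
    exact Set.nonempty_of_ncard_ne_zero (by exact_mod_cast h1.ne')

end Pool.Agent.Results.MP_618f8d_co.Yes
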